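import Pool.Agent.H967R3.Pen.Final

/-!
# Words in two parabolic matrices and the forms `s² - t s u - u²`, `t` odd
-/

set_option autoImplicit false

namespace Pool.Agent.Y241.PN

open Matrix Pool.Agent.H967R3.Pen

/-- Integral binary quadratic forms. -/
abbrev Frm : Type := Pool.Agent.H967R3.Pen.Frm

/-- The norm form. -/
def N (t a c : ℤ) : ℤ := a ^ 2 - t * a * c - c ^ 2

lemma N_step (t a c : ℤ) : N t c (a - t * c) = -N t a c := by unfold N; ring

/-- Small primitive values of the norm form are `±1`. -/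
lemma prim_nonneg (t : ℤ) (ht : 2 ≤ t) : ∀ (n : ℕ) (a c : ℤ), a ≤ n → 0 < a → 0 ≤ c →
    IsCoprime a c → 4 * (N t a c) ^ 2 < t ^ 2 + 4 → (N t a c) ^ 2 = 1 := by
  intro n
  induction n with
  | zero => intro a c h1 h2; push_cast at h1; omega
  | succ n ih =>
    intro a c h1 h2 h3 hco hN
    rcases h3.lt_or_eq with hc | hc
    · rcases lt_or_ge a (t * c) with h | h
      · exfalso
        have e1 : 0 ≤ (a - 1) * (t * c - a - 1) := mul_nonneg (by omega) (by omega)
        have e2 : t ≤ -N t a c := by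
          unfold N
          nlinarith
        have e3 : t ^ 2 ≤ (N t a c) ^ 2 := by nlinarith
        nlinarith
      · have hc2 : c ≤ n := by
          have : 2 * c ≤ t * c := by nlinarith
          push_cast at h1
          omega
        have hco2 : IsCoprime c (a - t * c) := by
          have : IsCoprime c (a + c * (-t)) := (IsCoprime.add_mul_left_right_iff).2 hco.symm
          convert this using 1; ring
        have := ih c (a - t * c) hc2 hc (by omega) hco2 (by rw [N_step]; simpa using hN)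
        rw [N_step] at this
        simpa using this
    · subst hc
      have hu : IsUnit a := isCoprime_zero_right.1 hco
      rcases Int.isUnit_iff.1 hu with rfl | rfl
      · simp [N]
      · omega

lemma prim (t : ℤ) (ht : 2 ≤ t) (a c : ℤ) (hco : IsCoprime a c)
    (hN : 4 * (N t a c) ^ 2 < t ^ 2 + 4) : (N t a c) ^ 2 = 1 := by
  have key : ∀ p q : ℤ, 0 < p → 0 ≤ q → IsCoprime p q → (N t p q) ^ 2 = (N t a c) ^ 2 →
      (N t a c) ^ 2 = 1 := by
    intro p q hp hq h e
    rw [← e]
    exact prim_nonneg t ht p.toNat p q (by omega) hp hq h (by rw [e]; exact hN)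
  rcases lt_trichotomy a 0 with ha | ha | ha
  · rcases le_or_gt c 0 with hc | hc
    · exact key (-a) (-c) (by omega) (by omega) hco.neg_neg (by unfold N; ring)
    · exact key c (-a) hc (by omega) hco.symm.neg_right (by unfold N; ring)
  · subst ha
    rcases Int.isUnit_iff.1 (isCoprime_zero_left.1 hco) with rfl | rfl <;> simp [N]
  · rcases le_or_gt 0 c with hc | hc
    · exact key a c ha hc hco rfl
    · exact key (-c) a (by omega) ha.le hco.symm.neg_left (by unfold N; ring)

/-- Small primitive values of the form are `±1`. -/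
def Good (t : ℤ) (R : Frm) : Prop := ∀ p q : ℤ, IsCoprime p q →
  4 * (R.A * p ^ 2 + R.B * p * q + R.C * q ^ 2) ^ 2 < t ^ 2 + 4 →
    (R.A * p ^ 2 + R.B * p * q + R.C * q ^ 2) ^ 2 = 1

/-- The form `s^2 - t s u - u^2`. -/
def Qt (t : ℤ) : Frm := ⟨1, -t, -1⟩

lemma good_Qt (t : ℤ) (ht : 2 ≤ t) : Good t (Qt t) := by
  intro p q h1 h2
  have e : (Qt t).A * p ^ 2 + (Qt t).B * p * q + (Qt t).C * q ^ 2 = N t p q := by
    simp only [Qt, N]; ring
  rw [e] at h2 ⊢
  exact prim t ht p q h1 h2

lemma Good.neg {t : ℤ} {R : Frm} (h : Good t R) : Good t R.neg := by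
  intro p q h1 h2
  have e : R.neg.A * p ^ 2 + R.neg.B * p * q + R.neg.C * q ^ 2 =
      -(R.A * p ^ 2 + R.B * p * q + R.C * q ^ 2) := by simp only [Frm.neg]; ring
  rw [e, neg_sq] at h2 ⊢
  exact h p q h1 h2

lemma coprime_mul {S : Matrix (Fin 2) (Fin 2) ℤ} (hS : S.det = 1) {p q : ℤ}
    (h : IsCoprime p q) : IsCoprime (S 0 0 * p + S 0 1 * q) (S 1 0 * p + S 1 1 * q) := by
  obtain ⟨u, v, huv⟩ := h
  rw [Matrix.det_fin_two] at hS
  refine ⟨u * S 1 1 - v * S 1 0, v * S 0 0 - u * S 0 1, ?_⟩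
  linear_combination (u * p + v * q) * hS + huv

lemma Good.act {t : ℤ} {R : Frm} (h : Good t R) {S : Matrix (Fin 2) (Fin 2) ℤ}
    (hS : S.det = 1) : Good t (R.act S) := by
  intro p q h1 h2
  have e : (R.act S).A * p ^ 2 + (R.act S).B * p * q + (R.act S).C * q ^ 2 =
      R.A * (S 0 0 * p + S 0 1 * q) ^ 2 + R.B * (S 0 0 * p + S 0 1 * q) *
        (S 1 0 * p + S 1 1 * q) + R.C * (S 1 0 * p + S 1 1 * q) ^ 2 := by
    simp only [Frm.act]; ring
  rw [e] at h2 ⊢
  exact h _ _ (coprime_mul hS h1) h2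

/-- The geodesic passes high over the cusp. -/
lemma long {D n m A B C : ℤ} (hn : 1 ≤ n) (hm : 1 ≤ m) (hA : 0 < A)
    (hd : B ^ 2 - 4 * A * C = D * n ^ 2) (hC : C < 0)
    (hC1 : C + 2 * n * m * B + 4 * n ^ 2 * m ^ 2 * A < 0) : 4 * m ^ 2 * A ^ 2 < D := by
  set s : ℤ := 2 * n * m with hs
  have hs0 : 0 < s := by positivity
  have h1 : C + s * B + s ^ 2 * A < 0 := by
    have : s ^ 2 * A = 4 * n ^ 2 * m ^ 2 * A := by rw [hs]; ring
    rw [this]; simpa [hs] using hC1
  have h2 : (s * A) ^ 2 < B ^ 2 - 4 * A * C := by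
    rcases le_or_gt (-(s * A)) B with hB | hB
    · have e1 : 0 < A * (-C - s * B - s ^ 2 * A) := mul_pos hA (by linarith)
      have e2 : (s * A) ^ 2 ≤ (B + 2 * (s * A)) ^ 2 := by
        have : 0 < s * A := by positivity
        nlinarith
      nlinarith
    · have e1 : 0 < A * (-C) := mul_pos hA (by linarith)
      have : 0 < s * A := by positivity
      nlinarith
  rw [hd, hs] at h2
  have hn2 : 0 < n ^ 2 := by positivity
  have h3 : (4 * m ^ 2 * A ^ 2) * n ^ 2 < D * n ^ 2 := by
    calc (4 * m ^ 2 * A ^ 2) * n ^ 2 = (2 * n * m * A) ^ 2 := by ring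
      _ < D * n ^ 2 := h2
  exact lt_of_mul_lt_mul_right h3 hn2.le

/-- The geodesic does not pass too high over the cusp. -/
lemma short {n m B C : ℤ} (hn : 1 ≤ n) (hm : 1 ≤ m) (hC : C < 0)
    (hl : 0 < 1 - 2 * n * B + 4 * n ^ 2 * C)
    (hC1 : C + 2 * n * m * B + 4 * n ^ 2 * m ^ 2 < 0)
    (hr : 0 < 1 + 2 * n * (B + 4 * n * m) + 4 * n ^ 2 * (C + 2 * n * m * B + 4 * n ^ 2 * m ^ 2)) :
    n ^ 2 * (B ^ 2 - 4 * C) < (1 + 2 * n ^ 2 * m) ^ 2 := by
  have hn2 : 0 < n ^ 2 := by positivity
  have a1 : n ^ 2 * (B ^ 2 - 4 * C) < (1 - n * B) ^ 2 := by nlinarith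
  have a2 : n ^ 2 * (B ^ 2 - 4 * C) < (1 + n * (B + 4 * n * m)) ^ 2 := by nlinarith
  have b1 : 0 ≤ 1 - n * B := by
    have : 0 < n ^ 2 * (-C) := mul_pos hn2 (by linarith)
    nlinarith
  have b2 : 0 ≤ 1 + n * (B + 4 * n * m) := by
    have : 0 < n ^ 2 * (-(C + 2 * n * m * B + 4 * n ^ 2 * m ^ 2)) := mul_pos hn2 (by linarith)
    nlinarith
  rcases le_total (1 - n * B) (1 + 2 * n ^ 2 * m) with h | h
  · exact a1.trans_le (pow_le_pow_left₀ b1 h 2)
  · refine a2.trans_le (pow_le_pow_left₀ b2 ?_ 2)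
    nlinarith

/-- The contradiction. -/
lemma heart {t n m B C : ℤ} (ht : 3 ≤ t) (hodd : Odd t) (hn : 1 ≤ n) (hm : 1 ≤ m)
    (hd : B ^ 2 - 4 * C = (t ^ 2 + 4) * n ^ 2) (hC : C < 0)
    (hl : 0 < 1 - 2 * n * B + 4 * n ^ 2 * C)
    (hC1 : C + 2 * n * m * B + 4 * n ^ 2 * m ^ 2 < 0)
    (hr : 0 < 1 + 2 * n * (B + 4 * n * m) +
      4 * n ^ 2 * (C + 2 * n * m * B + 4 * n ^ 2 * m ^ 2)) : False := by
  have h1 : 4 * m ^ 2 * 1 ^ 2 < t ^ 2 + 4 :=
    long hn hm one_pos (B := B) (C := C) (by linarith) hC (by linarith)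
  have h2 := short hn hm hC hl hC1 hr
  rw [hd] at h2
  have h3 : 2 * m ≤ t - 1 := by
    have h4 : 2 * m < t + 1 := by
      by_contra hcon
      push Not at hcon
      nlinarith
    obtain ⟨k, hk⟩ := hodd
    omega
  have hn2 : 1 ≤ n ^ 2 := by nlinarith
  have h5 : 1 + 2 * n ^ 2 * m ≤ n ^ 2 * t := by nlinarith
  have h6 : (1 + 2 * n ^ 2 * m) ^ 2 ≤ (n ^ 2 * t) ^ 2 := by
    apply pow_le_pow_left₀ _ h5
    positivity
  nlinarith

lemma word_replicate (n : ℤ) (m : ℕ) :
    word n (List.replicate m true) = !![1, 2 * n * m; 0, 1] := by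
  induction m with
  | zero => simp [word, Matrix.one_fin_two]
  | succ m ih =>
    rw [List.replicate_succ, word_cons, ih]
    ext i j
    fin_cases i <;> fin_cases j <;> simp [letter, Matrix.mul_apply, Fin.sum_univ_two]
    ring

/-- The arithmetic heart: the first letter is `true`, the last one `false`. -/
lemma no_pos {t : ℤ} (ht : 3 ≤ t) (hodd : Odd t) {R : Frm} (hR : Good t R)
    (hRd : R.disc = t ^ 2 + 4) {a b c d n : ℤ} (hac : IsCoprime a c) (hn : 1 ≤ n)
    (hdet : a * d - b * c = n) (m : ℕ) (hm : 1 ≤ m) (r : List Bool) (l1 : List Bool)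
    (hl1 : List.replicate m true ++ (false :: r) = l1 ++ [false])
    (h : (R.act !![a, b; c, d]).act (word n (List.replicate m true ++ (false :: r))) =
      R.act !![a, b; c, d]) (hA : 0 < (R.act !![a, b; c, d]).A) : False := by
  set Q : Frm := R.act !![a, b; c, d] with hQ
  have hQd : Q.disc = (t ^ 2 + 4) * n ^ 2 := by
    rw [hQ, Frm.disc_act, hRd, Matrix.det_fin_two_of, hdet]; ring
  have hd0 : Q.disc ≠ 0 := by rw [hQd]; positivity
  obtain ⟨m, rfl⟩ : ∃ m', m = m' + 1 := ⟨m - 1, by omega⟩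
  have hC : Q.A * Q.C < 0 := sign_word hn (by simp [List.replicate_succ]) (by simp) hd0 h
  have hC' : Q.C < 0 := by nlinarith
  -- one step to the left
  have hl : (Q.act (letterInv n false)).act (word n (false :: l1)) =
      Q.act (letterInv n false) := rot_left n false l1 (by rw [← hl1]; exact h)
  have hl1t : true ∈ l1 := by
    have : true ∈ l1 ++ [false] := by rw [← hl1]; simp [List.replicate_succ]
    simpa using this
  have hsl := sign_word hn (by simp [hl1t]) (by simp) (by rw [disc_letterInv]; exact hd0) hl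
  -- the block of letters `true`
  have hb := rot_gen n (List.replicate (m + 1) true) (false :: r) h
  have hbd : (Q.act (word n (List.replicate (m + 1) true))).disc = Q.disc := by
    rw [Frm.disc_act, det_word]; ring
  have hsb := sign_word hn (by simp [List.replicate_succ]) (by simp) (by rw [hbd]; exact hd0) hb
  -- one more letter
  have h' : Q.act (word n ((List.replicate (m + 1) true ++ [false]) ++ r)) = Q := by
    rw [List.append_assoc]; exact h
  have hc := rot_gen n (List.replicate (m + 1) true ++ [false]) r h'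
  have hcd : (Q.act (word n (List.replicate (m + 1) true ++ [false]))).disc = Q.disc := by
    rw [Frm.disc_act, det_word]; ring
  have hsc := sign_word hn (by simp [List.replicate_succ]) (by simp) (by rw [hcd]; exact hd0) hc
  have hAval : Q.A = R.A * a ^ 2 + R.B * a * c + R.C * c ^ 2 := by
    rw [hQ]; simp [Frm.act]
  obtain ⟨A, B, C⟩ := Q
  simp only [Frm.disc] at hQd
  simp only at hA hC hC' hAval
  have f1 : (⟨A, B, C⟩ : Frm).act (word n (List.replicate (m + 1) true)) =
      ⟨A, B + 4 * n * ((m + 1 : ℕ) : ℤ) * A, C + 2 * n * ((m + 1 : ℕ) : ℤ) * B +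
        4 * n ^ 2 * ((m + 1 : ℕ) : ℤ) ^ 2 * A⟩ := by
    rw [word_replicate]
    ext <;> simp [Frm.act] <;> ring
  rw [f1] at hsb
  rw [word_append, Frm.act_mul, f1, word_single] at hsc
  simp only at hsb
  set M : ℤ := ((m + 1 : ℕ) : ℤ) with hM
  have hM1 : 1 ≤ M := by rw [hM]; push_cast; omega
  have hC1 : C + 2 * n * M * B + 4 * n ^ 2 * M ^ 2 * A < 0 := by
    by_contra hcon
    push Not at hcon
    have := mul_nonneg hA.le hcon
    linarith
  have hlong : 4 * M ^ 2 * A ^ 2 < t ^ 2 + 4 := long hn hM1 hA hQd hC' hC1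
  have hA2 : 4 * A ^ 2 < t ^ 2 + 4 := by
    have : A ^ 2 ≤ M ^ 2 * A ^ 2 := by
      have h1 : 1 ≤ M ^ 2 := by nlinarith
      nlinarith [sq_nonneg A]
    linarith
  have hA1 : A ^ 2 = 1 := by
    rw [hAval] at hA2 ⊢
    exact hR a c hac hA2
  have hAone : A = 1 := by nlinarith
  clear_value M
  subst hAone
  have el : ((⟨1, B, C⟩ : Frm).act (letterInv n false)).A = 1 - 2 * n * B + 4 * n ^ 2 * C := by
    simp [Frm.act, letterInv]; ring
  have el' : ((⟨1, B, C⟩ : Frm).act (letterInv n false)).C = C := by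
    simp [Frm.act, letterInv]
  rw [el, el'] at hsl
  have er : ((⟨1, B + 4 * n * M * 1, C + 2 * n * M * B + 4 * n ^ 2 * M ^ 2 * 1⟩ : Frm).act
      (letter n false)).A = 1 + 2 * n * (B + 4 * n * M) +
        4 * n ^ 2 * (C + 2 * n * M * B + 4 * n ^ 2 * M ^ 2) := by
    simp [Frm.act, letter]; ring
  have er' : ((⟨1, B + 4 * n * M * 1, C + 2 * n * M * B + 4 * n ^ 2 * M ^ 2 * 1⟩ : Frm).act
      (letter n false)).C = C + 2 * n * M * B + 4 * n ^ 2 * M ^ 2 := by
    simp [Frm.act, letter]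
  rw [er, er'] at hsc
  have g1 : 0 < 1 - 2 * n * B + 4 * n ^ 2 * C := by
    by_contra hcon
    push Not at hcon
    have := mul_nonneg_of_nonpos_of_nonpos hcon hC'.le
    linarith
  have g2 : C + 2 * n * M * B + 4 * n ^ 2 * M ^ 2 < 0 := by linarith
  have g3 : 0 < 1 + 2 * n * (B + 4 * n * M) +
      4 * n ^ 2 * (C + 2 * n * M * B + 4 * n ^ 2 * M ^ 2) := by
    by_contra hcon
    push Not at hcon
    have := mul_nonneg_of_nonpos_of_nonpos hcon g2.le
    linarith
  exact heart ht hodd hn hM1 (by linarith) hC' g1 g2 g3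

lemma block (l : List Bool) (hf : false ∈ l) : ∃ (m : ℕ) (r : List Bool),
    l = List.replicate m true ++ (false :: r) := by
  induction l with
  | nil => simp at hf
  | cons y l ih =>
    cases y
    · exact ⟨0, l, rfl⟩
    · obtain ⟨m, r, e⟩ := ih (by simpa using hf)
      exact ⟨m + 1, r, by rw [e, List.replicate_succ]; rfl⟩

lemma no_aux {t : ℤ} (ht : 3 ≤ t) (hodd : Odd t) {R : Frm} (hR : Good t R)
    (hRd : R.disc = t ^ 2 + 4) {a b c d n : ℤ} (hac : IsCoprime a c) (hn : 1 ≤ n)
    (hdet : a * d - b * c = n) (m : List Bool)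
    (h : (R.act !![a, b; c, d]).act (word n (true :: (m ++ [false]))) =
      R.act !![a, b; c, d]) : False := by
  obtain ⟨k, r, hk⟩ := block (m ++ [false]) (by simp)
  have e1 : List.replicate (k + 1) true ++ (false :: r) = (true :: m) ++ [false] := by
    rw [List.replicate_succ, List.cons_append, ← hk]; rfl
  have e2 : true :: (m ++ [false]) = List.replicate (k + 1) true ++ (false :: r) := e1.symm
  rw [e2] at h
  have hQd : (R.act !![a, b; c, d]).disc = (t ^ 2 + 4) * n ^ 2 := by
    rw [Frm.disc_act, hRd, Matrix.det_fin_two_of, hdet]; ring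
  have hd0 : (R.act !![a, b; c, d]).disc ≠ 0 := by rw [hQd]; positivity
  have hs := sign_word hn (by simp [List.replicate_succ]) (by simp) hd0 h
  rcases lt_trichotomy (R.act !![a, b; c, d]).A 0 with hA | hA | hA
  · refine no_pos ht hodd hR.neg (by rw [Frm.disc_neg, hRd]) hac hn hdet (k + 1) (by omega) r
      (true :: m) e1 ?_ ?_
    · rw [Frm.neg_act, Frm.neg_act, h]
    · rw [Frm.neg_act]
      simpa [Frm.neg] using hA
  · rw [hA] at hs; simp at hs
  · exact no_pos ht hodd hR hRd hac hn hdet (k + 1) (by omega) r (true :: m) e1 h hA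

/-- No form in the orbit is preserved by a word with both letters. -/
lemma no_inv' {t : ℤ} (ht : 3 ≤ t) (hodd : Odd t) {R : Frm} (hR : Good t R)
    (hRd : R.disc = t ^ 2 + 4) {a b c d : ℤ} (hac : IsCoprime a c) (hn : 0 < a * d - c * b)
    {l : List Bool} (hlt : true ∈ l) (hlf : false ∈ l)
    (h : R.act (sword a c b d l) = R) : False := by
  have h0 : (R.act !![a, b; c, d]).act (word (a * d - c * b) l) = R.act !![a, b; c, d] := by
    rw [← Frm.act_mul, ← sword_mul, Frm.act_mul, h]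
  have hdet : a * d - b * c = a * d - c * b := by ring
  rcases split_word l with ⟨l1, l2, rfl⟩ | ⟨i, j, rfl⟩
  · have h' : (R.act !![a, b; c, d]).act (word (a * d - c * b) ((l1 ++ [false]) ++
        (true :: l2))) = R.act !![a, b; c, d] := by simpa using h0
    have h2 := rot_gen (a * d - c * b) _ _ h'
    have e : (R.act !![a, b; c, d]).act (word (a * d - c * b) (l1 ++ [false])) =
        (R.act (sword a c b d (l1 ++ [false]))).act !![a, b; c, d] := by
      rw [← Frm.act_mul, ← sword_mul, Frm.act_mul]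
    rw [e] at h2
    refine no_aux ht hodd (hR.act (det_sword a c b d (l1 ++ [false]))) ?_ hac (by omega) hdet
      (l2 ++ l1) ?_
    · rw [Frm.disc_act, det_sword, hRd]; ring
    · simpa using h2
  · cases i with
    | zero => simp at hlt
    | succ i =>
      cases j with
      | zero => simp at hlf
      | succ j =>
        refine no_aux ht hodd hR hRd hac (by omega) hdet
          (List.replicate i true ++ List.replicate j false) ?_
        have e : true :: ((List.replicate i true ++ List.replicate j false) ++ [false]) =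
            List.replicate (i + 1) true ++ List.replicate (j + 1) false := by
          rw [List.replicate_succ, List.replicate_succ' (n := j)]
          simp
        rw [e]; exact h0

lemma no_inv'' {t : ℤ} (ht : 3 ≤ t) (hodd : Odd t) {a b c d : ℤ} (hac : IsCoprime a c)
    (hn : a * d - c * b ≠ 0) {l : List Bool} (hlt : true ∈ l) (hlf : false ∈ l)
    (h : (Qt t).act (sword a c b d l) = Qt t) : False := by
  have hd : (Qt t).disc = t ^ 2 + 4 := by simp only [Qt, Frm.disc]; ring
  rcases lt_or_gt_of_ne hn with h0 | h0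
  · refine no_inv' ht hodd (good_Qt t (by omega)) hd (b := -b) (d := -d) hac (by linarith)
      hlt hlf ?_
    rw [sword_neg]; exact h
  · exact no_inv' ht hodd (good_Qt t (by omega)) hd hac h0 hlt hlf h

/-- The matrix of the orientation-reversing pseudo-Anosov class. -/
def Ft (t : ℤ) : Matrix (Fin 2) (Fin 2) ℤ := !![-t, -1; -1, 0]

/-- Its square. -/
def Gt (t : ℤ) : Matrix (Fin 2) (Fin 2) ℤ := !![t ^ 2 + 1, t; t, 1]

lemma Ft_sq (t : ℤ) : Ft t ^ 2 = Gt t := by
  rw [pow_two]
  ext i j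
  fin_cases i <;> fin_cases j <;> simp [Ft, Gt, Matrix.mul_apply, Fin.sum_univ_two]
  ring

lemma det_Ft (t : ℤ) : (Ft t).det = -1 := by simp [Ft, Matrix.det_fin_two]

lemma det_Gt (t : ℤ) : (Gt t).det = 1 := by simp [Gt, Matrix.det_fin_two]; ring

lemma Qt_act_Gt (t : ℤ) (m : ℕ) : (Qt t).act (Gt t ^ m) = Qt t := by
  induction m with
  | zero => simp [Frm.act_one]
  | succ m ih =>
    rw [pow_succ, Frm.act_mul, ih]
    ext <;> simp [Frm.act, Qt, Gt] <;> ring

lemma Gt_pow_entries {t : ℤ} (ht : 1 ≤ t) (m : ℕ) : 1 ≤ (Gt t ^ m) 0 0 ∧ 0 ≤ (Gt t ^ m) 0 1 ∧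
    0 ≤ (Gt t ^ m) 1 0 ∧ 1 ≤ (Gt t ^ m) 1 1 := by
  induction m with
  | zero => simp
  | succ m ih =>
    obtain ⟨h1, h2, h3, h4⟩ := ih
    have g00 : Gt t 0 0 = t ^ 2 + 1 := rfl
    have g01 : Gt t 0 1 = t := rfl
    have g10 : Gt t 1 0 = t := rfl
    have g11 : Gt t 1 1 = 1 := rfl
    rw [pow_succ]
    refine ⟨?_, ?_, ?_, ?_⟩ <;> rw [Matrix.mul_apply, Fin.sum_univ_two]
    · rw [g00, g10]; nlinarith
    · rw [g01, g11]; nlinarith
    · rw [g00, g10]; nlinarith
    · rw [g01, g11]; nlinarith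

lemma Gt_pow_trace {t : ℤ} (ht : 1 ≤ t) (m : ℕ) (hm : 1 ≤ m) : 3 ≤ (Gt t ^ m).trace := by
  obtain ⟨m, rfl⟩ : ∃ m', m = m' + 1 := ⟨m - 1, by omega⟩
  obtain ⟨h1, h2, h3, h4⟩ := Gt_pow_entries ht m
  rw [pow_succ]
  simp only [Matrix.trace, Fin.sum_univ_two, Matrix.diag_apply]
  have e1 : (Gt t ^ m * Gt t) 0 0 = (Gt t ^ m) 0 0 * (t ^ 2 + 1) + (Gt t ^ m) 0 1 * t := by
    simp [Gt, Matrix.mul_apply, Fin.sum_univ_two]
  have e2 : (Gt t ^ m * Gt t) 1 1 = (Gt t ^ m) 1 0 * t + (Gt t ^ m) 1 1 := by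
    simp [Gt, Matrix.mul_apply, Fin.sum_univ_two]
  rw [e1, e2]
  nlinarith

/-- A power of `F` of determinant one is a power of `G`. -/
lemma even_of_det' {t : ℤ} {k : ℕ} (h : (Ft t ^ k).det = 1) (hk : 1 ≤ k) :
    ∃ m, 1 ≤ m ∧ Ft t ^ k = Gt t ^ m := by
  rw [Matrix.det_pow, det_Ft] at h
  have he : Even k := by
    by_contra hodd
    rw [Nat.not_even_iff_odd] at hodd
    rw [hodd.neg_one_pow] at h
    norm_num at h
  obtain ⟨m, rfl⟩ := he
  refine ⟨m, by omega, ?_⟩
  rw [← two_mul, pow_mul, Ft_sq]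

/-- No word in a twist matrix and an inverse twist matrix is, up to sign, a positive power
of `F`. -/
theorem sword_ne' {t : ℤ} (ht : 3 ≤ t) (hodd : Odd t) {a c : ℤ} (hac : IsCoprime a c) (b d : ℤ)
    (l : List Bool) (k : ℕ) (hk : 1 ≤ k) :
    sword a c b d l ≠ Ft t ^ k ∧ sword a c b d l ≠ -Ft t ^ k := by
  have main : ∀ M : Matrix (Fin 2) (Fin 2) ℤ, sword a c b d l = M →
      (M = Ft t ^ k ∨ M = -Ft t ^ k) → False := by
    intro M hM hor
    have hdet : M.det = 1 := by rw [← hM]; exact det_sword a c b d l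
    have hdF : (Ft t ^ k).det = 1 := by
      rcases hor with h | h
      · rw [← h]; exact hdet
      · rw [h, Matrix.det_neg] at hdet
        simpa using hdet
    obtain ⟨m, hm1, hm⟩ := even_of_det' hdF hk
    rw [hm] at hor
    have htr := Gt_pow_trace (t := t) (by omega) m hm1
    have hne : M.trace ≠ 2 := by
      rcases hor with h | h
      · rw [h]; omega
      · rw [h, Matrix.trace_neg]; omega
    have hinv : (Qt t).act M = Qt t := by
      rcases hor with h | h
      · rw [h]; exact Qt_act_Gt t m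
      · rw [h]
        have : (Qt t).act (-(Gt t ^ m)) = (Qt t).act (Gt t ^ m) := by
          ext <;> simp [Frm.act]
        rw [this]; exact Qt_act_Gt t m
    by_cases hn : a * d - c * b = 0
    · exact hne (by rw [← hM]; exact trace_par a c b d hn l)
    · by_cases hlt : true ∈ l
      · by_cases hlf : false ∈ l
        · exact no_inv'' ht hodd hac hn hlt hlf (by rw [hM]; exact hinv)
        · refine hne ?_
          rw [← hM]
          refine trace_single a c b d true l ?_
          intro z hz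
          cases z
          · exact absurd hz hlf
          · rfl
      · refine hne ?_
        rw [← hM]
        refine trace_single a c b d false l ?_
        intro z hz
        cases z
        · rfl
        · exact absurd hz hlt
  exact ⟨fun h => main _ h (Or.inl rfl), fun h => main _ h (Or.inr rfl)⟩

end Pool.Agent.Y241.PN
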