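import Pool.Agent.Y241.PN.Arith

/-!
# A family of orientation-reversing mapping classes of the four-punctured sphere
-/

set_option autoImplicit false

namespace Pool.Agent.Y241.PN

open Matrix Pool.Agent.H967R3 Pool.Agent.H967R3.Pen

lemma geometric_one' : Geometric 1 (1 : MulAut F3) :=
  ⟨1, fun i => by simpa using IsConj.refl (per i)⟩

lemma geometric_pow {φ : MulAut F3} (h : Geometric 1 φ) (k : ℕ) : Geometric 1 (φ ^ k) := by
  induction k with
  | zero => exact geometric_one'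
  | succ k ih => rw [pow_succ]; simpa using ih.mul h

/-- The orientation-reversing mapping class with the matrix `!![-t, -1; -1, 0]`. -/
def fam (t : ℕ) : MulAut F3 := half ^ t * refl

lemma fam_geometric (t : ℕ) : Geometric (-1) (fam t) := by
  have h := (geometric_pow half_geometric t).mul refl_geometric
  simpa [fam] using h

lemma lin_half_pow (t : ℕ) : lin (half ^ t) = !![1, (t : ℤ); 0, 1] := by
  have h := lin_pow half_geometric.parPres t
  rw [h.2, lin_half]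
  clear h
  induction t with
  | zero => simp [Matrix.one_fin_two]
  | succ t ih =>
    rw [pow_succ, ih]
    ext i j
    fin_cases i <;> fin_cases j <;> simp [Matrix.mul_apply, Fin.sum_univ_two]
    ring

lemma lin_fam (t : ℕ) : lin (fam t) = Ft t := by
  have h1 := (geometric_pow half_geometric t).parPres
  have h2 := refl_geometric.parPres
  rw [fam, lin_mul h1 h2, lin_half_pow, lin_refl]
  ext i j
  fin_cases i <;> fin_cases j <;> simp [Ft, Matrix.mul_apply, Fin.sum_univ_two]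

lemma coprime_of_det {a b c d : ℤ} (h : a * d - b * c = 1) : IsCoprime a c :=
  ⟨d, -b, by linarith⟩

/-- All twists about the components of a multicurve have the same linear part. -/
lemma multicurve_rep' {A : Set OutF3} (hA : IsMulticurve A) :
    ∃ a c : ℤ, IsCoprime a c ∧
      ∀ t ∈ A, ∃ τ : MulAut F3, ParPres τ ∧ (τ : OutF3) = t ∧ lin τ = T a c := by
  rcases A.eq_empty_or_nonempty with rfl | ⟨t0, ht0⟩
  · exact ⟨1, 0, isCoprime_one_left, by simp⟩
  · obtain ⟨φ0, hφ0, e0⟩ := hA.1 t0 ht0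
    obtain ⟨hp0, hl0⟩ := lin_twist hφ0
    have d0 := hφ0.det
    rw [Matrix.det_fin_two] at d0
    simp only [Units.val_one] at d0
    refine ⟨lin φ0 0 0, lin φ0 1 0, coprime_of_det d0, fun t ht => ?_⟩
    obtain ⟨φ, hφ, e⟩ := hA.1 t ht
    obtain ⟨hp, hl⟩ := lin_twist hφ
    refine ⟨φ * twist0 * φ⁻¹, hp, e.symm, ?_⟩
    rw [hl]
    have hc := hA.2 t0 ht0 t ht
    have hc' : (((φ * twist0 * φ⁻¹) * (φ0 * twist0 * φ0⁻¹) : MulAut F3) : OutF3) =
        (((φ0 * twist0 * φ0⁻¹) * (φ * twist0 * φ⁻¹) : MulAut F3) : OutF3) := by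
      rw [QuotientGroup.mk_mul, QuotientGroup.mk_mul _ (φ0 * twist0 * φ0⁻¹)
        (φ * twist0 * φ⁻¹), ← e, ← e0]
      exact hc.eq.symm
    have h3 := lin_out (hp.mul hp0) hc'
    rw [lin_mul hp hp0, lin_mul hp0 hp, hl0, hl] at h3
    have hpar := parallel_of_commute h3
    have d1 := hφ.det
    rw [Matrix.det_fin_two] at d1
    simp only [Units.val_one] at d1
    exact T_eq_of_parallel d0 d1 hpar

/-- A product of twists from two multicurves is represented by a word in two matrices. -/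
lemma prod_rep' {A B : Set OutF3} (hA : IsMulticurve A) (hB : IsMulticurve B) :
    ∃ a c b d : ℤ, IsCoprime a c ∧ ∀ l : List OutF3, (∀ g ∈ l, g ∈ A ∨ g⁻¹ ∈ B) →
      ∃ ψ : MulAut F3, ParPres ψ ∧ (ψ : OutF3) = l.prod ∧
        ∃ m : List Bool, lin ψ = sword a c b d m := by
  obtain ⟨a, c, hco, hac⟩ := multicurve_rep' hA
  obtain ⟨b, d, -, hbd⟩ := multicurve_rep' hB
  refine ⟨a, c, b, d, hco, fun l => ?_⟩
  induction l with
  | nil =>
    intro _
    exact ⟨1, ParPres.one, by simp, [], by simp [lin_one, sword]⟩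
  | cons g l ih =>
    intro h
    obtain ⟨ψ, hψ, hψ', m, hm⟩ := ih (fun g' hg' => h g' (List.mem_cons_of_mem _ hg'))
    rcases h g List.mem_cons_self with hg | hg
    · obtain ⟨τ, h1, h2, h3⟩ := hac g hg
      refine ⟨τ * ψ, h1.mul hψ, ?_, true :: m, ?_⟩
      · rw [QuotientGroup.mk_mul, h2, hψ', List.prod_cons]
      · rw [lin_mul h1 hψ, h3, hm, sword_cons]; rfl
    · obtain ⟨τ, h1, h2, h3⟩ := hbd g⁻¹ hg
      refine ⟨τ⁻¹ * ψ, h1.inv.mul hψ, ?_, false :: m, ?_⟩
      · rw [QuotientGroup.mk_mul, QuotientGroup.mk_inv, h2, inv_inv, hψ', List.prod_cons]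
      · rw [lin_mul h1.inv hψ, inv_rep h1 h3, hm, sword_cons]; rfl

/-- No positive power of `fam t` is a product of twists about a multicurve and inverse twists
about a multicurve. -/
theorem fam_not_prod {t : ℕ} (ht : 3 ≤ t) (hodd : Odd t) {A B : Set OutF3}
    (hA : IsMulticurve A) (hB : IsMulticurve B) (k : ℕ)
    (hk : 1 ≤ k) (l : List OutF3) (hl : ∀ g ∈ l, g ∈ A ∨ g⁻¹ ∈ B) :
    l.prod ≠ ((fam t ^ k : MulAut F3) : OutF3) := by
  intro he
  obtain ⟨a, c, b, d, hco, h⟩ := prod_rep' hA hB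
  obtain ⟨ψ, hψ, hψ', m, hm⟩ := h l hl
  have hpow := lin_pow (fam_geometric t).parPres k
  have h1 := lin_out hpow.1 (show ((fam t ^ k : MulAut F3) : OutF3) = (ψ : OutF3) by
    rw [hψ', he])
  rw [hpow.2, lin_fam, hm] at h1
  have h2 := sword_ne' (t := (t : ℤ)) (by exact_mod_cast ht) (by exact_mod_cast hodd) hco b d m
    k hk
  rcases h1 with h1 | h1
  · exact h2.1 h1
  · exact h2.2 h1

theorem fam_not_penner {t : ℕ} (ht : 3 ≤ t) (hodd : Odd t) (k : ℕ) (hk : 1 ≤ k) :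
    ¬ ArisesFromPenner ((fam t ^ k : MulAut F3) : OutF3) := by
  rintro ⟨A, B, hA, hB, -, l, hl, -, -, he⟩
  exact fam_not_prod ht hodd hA hB k hk l hl he

lemma Gt_pow_fix {t : ℤ} (ht : 1 ≤ t) (k : ℕ) (hk : 1 ≤ k) (a c : ℤ)
    (h1 : (Gt t ^ k) 0 0 * a + (Gt t ^ k) 0 1 * c = a)
    (h2 : (Gt t ^ k) 1 0 * a + (Gt t ^ k) 1 1 * c = c) :
    a = 0 ∧ c = 0 := by
  have htr := Gt_pow_trace ht k hk
  have hd : (Gt t ^ k).det = 1 := by
    rw [Matrix.det_pow, det_Gt, one_pow]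
  rw [Matrix.det_fin_two] at hd
  simp only [Matrix.trace, Fin.sum_univ_two, Matrix.diag_apply] at htr
  set p := (Gt t ^ k) 0 0
  set q := (Gt t ^ k) 0 1
  set r := (Gt t ^ k) 1 0
  set s := (Gt t ^ k) 1 1
  have e1 : (2 - (p + s)) * a = 0 := by
    linear_combination (s - 1) * h1 - q * h2 - a * hd
  have e2 : (2 - (p + s)) * c = 0 := by
    linear_combination (p - 1) * h2 - r * h1 - c * hd
  have hne : 2 - (p + s) ≠ 0 := by omega
  exact ⟨(mul_eq_zero.1 e1).resolve_left hne, (mul_eq_zero.1 e2).resolve_left hne⟩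

lemma Ft_pow_fix {t : ℤ} (ht : 1 ≤ t) (k : ℕ) (hk : 1 ≤ k) (a c : ℤ)
    (h : ((Ft t ^ k) 0 0 * a + (Ft t ^ k) 0 1 * c = a ∧
        (Ft t ^ k) 1 0 * a + (Ft t ^ k) 1 1 * c = c) ∨
      ((Ft t ^ k) 0 0 * a + (Ft t ^ k) 0 1 * c = -a ∧
        (Ft t ^ k) 1 0 * a + (Ft t ^ k) 1 1 * c = -c)) :
    a = 0 ∧ c = 0 := by
  have hG : Gt t ^ k = Ft t ^ k * Ft t ^ k := by rw [← Ft_sq, ← pow_mul, ← pow_add, two_mul]
  have e00 : (Gt t ^ k) 0 0 = (Ft t ^ k) 0 0 * (Ft t ^ k) 0 0 +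
      (Ft t ^ k) 0 1 * (Ft t ^ k) 1 0 := by
    rw [hG, Matrix.mul_apply, Fin.sum_univ_two]
  have e01 : (Gt t ^ k) 0 1 = (Ft t ^ k) 0 0 * (Ft t ^ k) 0 1 +
      (Ft t ^ k) 0 1 * (Ft t ^ k) 1 1 := by
    rw [hG, Matrix.mul_apply, Fin.sum_univ_two]
  have e10 : (Gt t ^ k) 1 0 = (Ft t ^ k) 1 0 * (Ft t ^ k) 0 0 +
      (Ft t ^ k) 1 1 * (Ft t ^ k) 1 0 := by
    rw [hG, Matrix.mul_apply, Fin.sum_univ_two]
  have e11 : (Gt t ^ k) 1 1 = (Ft t ^ k) 1 0 * (Ft t ^ k) 0 1 +
      (Ft t ^ k) 1 1 * (Ft t ^ k) 1 1 := by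
    rw [hG, Matrix.mul_apply, Fin.sum_univ_two]
  apply Gt_pow_fix ht k hk a c
  · rw [e00, e01]
    rcases h with ⟨h1, h2⟩ | ⟨h1, h2⟩
    · linear_combination ((Ft t ^ k) 0 0 + 1) * h1 + (Ft t ^ k) 0 1 * h2
    · linear_combination ((Ft t ^ k) 0 0 - 1) * h1 + (Ft t ^ k) 0 1 * h2
  · rw [e10, e11]
    rcases h with ⟨h1, h2⟩ | ⟨h1, h2⟩
    · linear_combination (Ft t ^ k) 1 0 * h1 + ((Ft t ^ k) 1 1 + 1) * h2
    · linear_combination (Ft t ^ k) 1 0 * h1 + ((Ft t ^ k) 1 1 - 1) * h2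

theorem fam_pseudoAnosov {t : ℕ} (ht : 1 ≤ t) : IsPseudoAnosov (fam t) := by
  intro k hk φ hφ
  have hp := hφ.parPres
  have hd := hφ.det
  rw [Matrix.det_fin_two] at hd
  simp only [Units.val_one] at hd
  have hpow := lin_pow (fam_geometric t).parPres k
  rw [lin_fam] at hpow
  have hu : (Pi (φ curve0)).e = 1 := by rw [hp]; simp [curve0]
  have hb := lin_aff hp curve0
  have hc1 : (Pi curve0).b1 = -1 := by simp [curve0]
  have hc2 : (Pi curve0).b2 = 0 := by simp [curve0]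
  have hc3 : (Pi curve0).e = 1 := by simp [curve0]
  rw [hc1, hc2, hc3] at hb
  have hb1 : (Pi (φ curve0)).b1 = -(lin φ 0 0) := by
    have := hb.1; push_cast at this; linarith
  have hb2 : (Pi (φ curve0)).b2 = -(lin φ 1 0) := by
    have := hb.2; push_cast at this; linarith
  have hv := lin_aff hpow.1 (φ curve0)
  rw [hpow.2, hu, hb1, hb2] at hv
  have hv1 : (Pi ((fam t ^ k) (φ curve0))).b1 =
      (Ft t ^ k) 0 0 * -(lin φ 0 0) + (Ft t ^ k) 0 1 * -(lin φ 1 0) := by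
    have := hv.1; push_cast at this; linarith
  have hv2 : (Pi ((fam t ^ k) (φ curve0))).b2 =
      (Ft t ^ k) 1 0 * -(lin φ 0 0) + (Ft t ^ k) 1 1 * -(lin φ 1 0) := by
    have := hv.2; push_cast at this; linarith
  -- both alternatives are impossible
  have main : ¬ (((Ft t ^ k) 0 0 * -(lin φ 0 0) + (Ft t ^ k) 0 1 * -(lin φ 1 0) =
        -(lin φ 0 0) ∧
        (Ft t ^ k) 1 0 * -(lin φ 0 0) + (Ft t ^ k) 1 1 * -(lin φ 1 0) = -(lin φ 1 0)) ∨
      ((Ft t ^ k) 0 0 * -(lin φ 0 0) + (Ft t ^ k) 0 1 * -(lin φ 1 0) = - -(lin φ 0 0) ∧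
        (Ft t ^ k) 1 0 * -(lin φ 0 0) + (Ft t ^ k) 1 1 * -(lin φ 1 0) = - -(lin φ 1 0))) := by
    intro h
    obtain ⟨h1, h2⟩ := Ft_pow_fix (t := (t : ℤ)) (by exact_mod_cast ht) k hk _ _ h
    have h1' : lin φ 0 0 = 0 := by linarith
    have h2' : lin φ 1 0 = 0 := by linarith
    rw [h1', h2'] at hd
    simp at hd
  constructor
  · intro hconj
    obtain ⟨c, hc⟩ := isConj_iff.1 hconj.symm
    have hcb := conj_even (Pi c) (Pi (φ curve0)) hu
    rw [← map_inv, ← map_mul, ← map_mul, hc, hb1, hb2, hv1, hv2] at hcb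
    rcases Int.units_eq_one_or (Pi c).e with he | he
    · rw [he] at hcb
      apply main; left
      simpa using hcb
    · rw [he] at hcb
      apply main; right
      simpa using hcb
  · intro hconj
    obtain ⟨c, hc⟩ := isConj_iff.1 hconj.symm
    have hu' : (Pi (φ curve0)⁻¹).e = 1 := by simp [hu]
    have hcb := conj_even (Pi c) (Pi (φ curve0)⁻¹) hu'
    have hi1 : (Pi (φ curve0)⁻¹).b1 = lin φ 0 0 := by simp [hu, hb1]
    have hi2 : (Pi (φ curve0)⁻¹).b2 = lin φ 1 0 := by simp [hu, hb2]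
    have hE : Pi c * Pi (φ curve0)⁻¹ * (Pi c)⁻¹ = Pi ((fam t ^ k) (φ curve0)) := by
      rw [← hc, map_mul Pi, map_mul Pi, map_inv Pi c]
    rw [hE, hi1, hi2, hv1, hv2] at hcb
    rcases Int.units_eq_one_or (Pi c).e with he | he
    · rw [he] at hcb
      apply main; right
      simpa using hcb
    · rw [he] at hcb
      apply main; left
      simpa using hcb

/-! ### Even `t`: the square arises from Penner's construction -/

/-- The rotation of the four punctures. -/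
def rotHom : F3 →* F3 := FreeGroup.lift ![x 1, x 2, (x 0 * x 1 * x 2)⁻¹]

/-- The inverse rotation. -/
def rotInvHom : F3 →* F3 := FreeGroup.lift ![(x 0 * x 1 * x 2)⁻¹, x 0, x 1]

lemma rotHom_x0 : rotHom (x 0) = x 1 := by simp [rotHom, x]
lemma rotHom_x1 : rotHom (x 1) = x 2 := by simp [rotHom, x]
lemma rotHom_x2 : rotHom (x 2) = (x 0 * x 1 * x 2)⁻¹ := by simp [rotHom, x]
lemma rotInvHom_x0 : rotInvHom (x 0) = (x 0 * x 1 * x 2)⁻¹ := by simp [rotInvHom, x]
lemma rotInvHom_x1 : rotInvHom (x 1) = x 0 := by simp [rotInvHom, x]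
lemma rotInvHom_x2 : rotInvHom (x 2) = x 1 := by simp [rotInvHom, x]

lemma rot_comp1 : rotInvHom.comp rotHom = MonoidHom.id F3 := by
  ext i
  fin_cases i
  · change rotInvHom (rotHom (x 0)) = x 0
    rw [rotHom_x0, rotInvHom_x1]
  · change rotInvHom (rotHom (x 1)) = x 1
    rw [rotHom_x1, rotInvHom_x2]
  · change rotInvHom (rotHom (x 2)) = x 2
    rw [rotHom_x2, map_inv, map_mul, map_mul, rotInvHom_x0, rotInvHom_x1, rotInvHom_x2]
    group

lemma rot_comp2 : rotHom.comp rotInvHom = MonoidHom.id F3 := by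
  ext i
  fin_cases i
  · change rotHom (rotInvHom (x 0)) = x 0
    rw [rotInvHom_x0, map_inv, map_mul, map_mul, rotHom_x0, rotHom_x1, rotHom_x2]
    group
  · change rotHom (rotInvHom (x 1)) = x 1
    rw [rotInvHom_x1, rotHom_x0]
  · change rotHom (rotInvHom (x 2)) = x 2
    rw [rotInvHom_x2, rotHom_x1]

/-- The rotation as an automorphism. -/
def rot : MulAut F3 := MonoidHom.toMulEquiv rotHom rotInvHom rot_comp1 rot_comp2

lemma rot_x0 : rot (x 0) = x 1 := rotHom_x0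
lemma rot_x1 : rot (x 1) = x 2 := rotHom_x1
lemma rot_x2 : rot (x 2) = (x 0 * x 1 * x 2)⁻¹ := rotHom_x2

lemma rot_geometric : Geometric 1 rot := by
  refine ⟨finRotate 4, fun i => ?_⟩
  have e0 : (finRotate 4) 0 = 1 := by decide
  have e1 : (finRotate 4) 1 = 2 := by decide
  have e2 : (finRotate 4) 2 = 3 := by decide
  have e3 : (finRotate 4) 3 = 0 := by decide
  fin_cases i
  · change IsConj (rot (per 0)) (per (finRotate 4 0) ^ (1 : ℤ))
    rw [e0, per0, per1, rot_x0, zpow_one]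
  · change IsConj (rot (per 1)) (per (finRotate 4 1) ^ (1 : ℤ))
    rw [e1, per1, per2, rot_x1, zpow_one]
  · change IsConj (rot (per 2)) (per (finRotate 4 2) ^ (1 : ℤ))
    rw [e2, per2, per3, rot_x2, zpow_one]
  · change IsConj (rot (per 3)) (per (finRotate 4 3) ^ (1 : ℤ))
    rw [e3, per3, per0, map_inv, map_mul, map_mul, rot_x0, rot_x1, rot_x2, zpow_one]
    have e : (x 1 * x 2 * (x 0 * x 1 * x 2)⁻¹)⁻¹ = x 0 := by group
    rw [e]

lemma lin_rot : (lin rot) 0 0 = 0 := by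
  unfold lin
  rw [rot_x0, rot_x1]
  simp

/-- Reflecting the twist gives the inverse of a twist. -/
lemma refl_twist : Pen.refl * twist0 * Pen.refl = (rot * twist0 * rot⁻¹)⁻¹ := by
  have h : Pen.refl * twist0 * Pen.refl * (rot * twist0) = rot := by
    apply MulEquiv.toMonoidHom_injective
    ext i
    fin_cases i
    · change Pen.refl (twist0 (Pen.refl (rot (twist0 (x 0))))) = rot (x 0)
      simp only [map_mul, map_inv, twist0_x0, curve0, rot_x0, rot_x1, rot_x2, refl_x0, refl_x1,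
        refl_x2, twist0_x1, twist0_x2]
      group
    · change Pen.refl (twist0 (Pen.refl (rot (twist0 (x 1))))) = rot (x 1)
      simp only [map_mul, map_inv, twist0_x0, curve0, rot_x0, rot_x1, rot_x2, refl_x0, refl_x1,
        refl_x2, twist0_x1, twist0_x2]
      group
    · change Pen.refl (twist0 (Pen.refl (rot (twist0 (x 2))))) = rot (x 2)
      simp only [map_mul, map_inv, twist0_x0, curve0, rot_x0, rot_x1, rot_x2, refl_x0, refl_x1,
        refl_x2, twist0_x1, twist0_x2]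
      group
  rw [eq_inv_iff_mul_eq_one, ← mul_assoc, h, mul_inv_cancel]

lemma refl_refl : Pen.refl * Pen.refl = 1 := by
  apply MulEquiv.toMonoidHom_injective
  exact refl_comp

lemma refl_pow (s : ℕ) : Pen.refl * twist0 ^ s * Pen.refl =
    ((rot * twist0 * rot⁻¹)⁻¹) ^ s := by
  rw [← refl_twist]
  induction s with
  | zero => simp [refl_refl]
  | succ s ih =>
    rw [pow_succ, pow_succ, ← ih]
    calc Pen.refl * (twist0 ^ s * twist0) * Pen.refl
        = Pen.refl * twist0 ^ s * 1 * (twist0 * Pen.refl) := by simp only [mul_assoc, one_mul]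
      _ = Pen.refl * twist0 ^ s * (Pen.refl * Pen.refl) * (twist0 * Pen.refl) := by
          rw [refl_refl]
      _ = _ := by simp only [mul_assoc]

lemma fam_sq (s : ℕ) : fam (2 * s) ^ 2 = twist0 ^ s * ((rot * twist0 * rot⁻¹)⁻¹) ^ s := by
  have h1 : half ^ (2 * s) = twist0 ^ s := by rw [pow_mul, pow_two, half_sq]
  rw [fam, h1, pow_two, ← refl_pow]
  simp only [mul_assoc]

/-- Two twists which commute are about parallel curves. -/
lemma parallel {φ ψ : MulAut F3} (hφ : Geometric 1 φ) (hψ : Geometric 1 ψ)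
    (h : Commute ((φ * twist0 * φ⁻¹ : MulAut F3) : OutF3)
      ((ψ * twist0 * ψ⁻¹ : MulAut F3) : OutF3)) :
    lin φ 0 0 * lin ψ 1 0 - lin ψ 0 0 * lin φ 1 0 = 0 := by
  obtain ⟨hp, hl⟩ := lin_twist hφ
  obtain ⟨hp', hl'⟩ := lin_twist hψ
  have h3 := lin_out (hp'.mul hp)
    (ψ := (φ * twist0 * φ⁻¹) * (ψ * twist0 * ψ⁻¹)) (by
      rw [QuotientGroup.mk_mul, QuotientGroup.mk_mul _ (φ * twist0 * φ⁻¹) (ψ * twist0 * ψ⁻¹)]
      exact h.eq.symm)
  rw [lin_mul hp hp', lin_mul hp' hp, hl, hl'] at h3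
  exact parallel_of_commute h3

/-- For even `t ≥ 2` the square arises from Penner's construction. -/
theorem fam_sq_penner {s : ℕ} (hs : 1 ≤ s) :
    ArisesFromPenner ((fam (2 * s) ^ 2 : MulAut F3) : OutF3) := by
  have e0 : ((1 * twist0 * 1⁻¹ : MulAut F3) : OutF3) = ((twist0 : MulAut F3) : OutF3) := by
    simp
  refine ⟨{((1 * twist0 * 1⁻¹ : MulAut F3) : OutF3)},
    {((rot * twist0 * rot⁻¹ : MulAut F3) : OutF3)}, ⟨?_, ?_⟩, ⟨?_, ?_⟩, ?_,
    List.replicate s ((1 * twist0 * 1⁻¹ : MulAut F3) : OutF3) ++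
      List.replicate s ((rot * twist0 * rot⁻¹ : MulAut F3) : OutF3)⁻¹, ?_, ?_, ?_, ?_⟩
  · rintro t rfl
    exact ⟨1, geometric_one', rfl⟩
  · rintro s rfl t rfl
    exact Commute.refl _
  · rintro t rfl
    exact ⟨rot, rot_geometric, rfl⟩
  · rintro s rfl t rfl
    exact Commute.refl _
  · rintro t ⟨φ, hφ, rfl⟩
    by_contra hcon
    push Not at hcon
    have c1 := parallel geometric_one' hφ (hcon _ (Or.inl rfl))
    have c2 := parallel rot_geometric hφ (hcon _ (Or.inr rfl))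
    have hd := hφ.det
    have hr := rot_geometric.det
    rw [Matrix.det_fin_two] at hd hr
    simp only [Units.val_one] at hd hr
    rw [lin_one] at c1
    rw [lin_rot] at c2 hr
    simp at c1 c2
    rw [c1] at hd
    rcases c2 with c2 | c2
    · rw [c2] at hd; simp at hd
    · rw [c2] at hr; simp at hr
  · intro g hg
    simp only [List.mem_append, List.mem_replicate] at hg
    rcases hg with ⟨-, rfl⟩ | ⟨-, rfl⟩
    · exact Or.inl rfl
    · exact Or.inr (by simp)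
  · rintro a rfl
    exact List.mem_append.2 (Or.inl (List.mem_replicate.2 ⟨by omega, rfl⟩))
  · rintro b rfl
    exact List.mem_append.2 (Or.inr (List.mem_replicate.2 ⟨by omega, rfl⟩))
  · rw [List.prod_append, List.prod_replicate, List.prod_replicate, fam_sq, e0]
    rfl

end Pool.Agent.Y241.PN
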